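import Pool.Agent.EdgeGame200.Main

/-!
# A graph property whose edge-query game is undetermined

The game and the notions of winning are defined in `Pool/Agent/EdgeGame200/Game.lean`.
-/

namespace Pool.Agent.Results.MP_5af839_lc.Undetermined

open Pool.Agent.EdgeGame200

/-- There is a graph property `S` (a set of graphs on `ℕ` closed under isomorphism) such that
neither Seeker nor Hider has a winning strategy in the edge-query game `G(S)`. -/
theorem result : ∃ S : Set (SimpleGraph ℕ),
    (∀ G G' : SimpleGraph ℕ, Nonempty (G ≃g G') → G ∈ S → G' ∈ S) ∧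
    ¬ SeekerHasWinningStrategy S ∧ ¬ HiderHasWinningStrategy S := by
  obtain ⟨C, h1, h2⟩ := main
  exact ⟨SS C, fun _ _ h hG => iso_inv C h hG, h1, h2⟩

end Pool.Agent.Results.MP_5af839_lc.Undetermined
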